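import Pool.Agent.H.MP_53e59f_lc.SF.Stm

/-!
# Words in which all letters but one have few blocks
-/

namespace Pool.Agent.SJ

/-- The number of maximal blocks of the letter `e` in a word. -/
def blk {α : Type} [DecidableEq α] (e : α) : List α → ℕ
  | [] => 0
  | [a] => if a = e then 1 else 0
  | a :: b :: l => (if a = e ∧ b ≠ e then 1 else 0) + blk e (b :: l)

/-- There is a letter `d` such that every other letter has at most `k` blocks in every factor `a` of `u`
which is a permutation of a factor `b` of `v`. -/
def FewB {α : Type} [DecidableEq α] (k : ℕ) (u v : List α) : Prop :=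
  ∃ d : α, ∀ a b : List α, a <:+: u → b <:+: v → a.Perm b → ∀ e, e ≠ d → blk e a ≤ k

end Pool.Agent.SJ
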