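import Pool.Agent.H.MP_53e59f_lc.SJ.Defs
import Pool.Agent.H.MP_53e59f_lc.SI.Small

/-!
# Blocks of a letter
-/

namespace Pool.Agent.SJ

open Pool.Agent.SF

theorem blk_snoc {α : Type} [DecidableEq α] (e a : α) (l : List α) :
    blk e (l ++ [a]) = blk e l + (if a = e ∧ l.getLast? ≠ some e then 1 else 0) := by
  induction l with
  | nil => simp [blk]
  | cons b l ih =>
    cases l with
    | nil =>
      show blk e [b, a] = _
      by_cases h1 : b = e <;> by_cases h2 : a = e <;> simp [blk, h1, h2]
    | cons c l =>
      have e1 : blk e (b :: c :: l ++ [a]) =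
          (if b = e ∧ c ≠ e then 1 else 0) + blk e (c :: l ++ [a]) := rfl
      have e2 : blk e (b :: c :: l) = (if b = e ∧ c ≠ e then 1 else 0) + blk e (c :: l) := rfl
      have e3 : (b :: c :: l).getLast? = (c :: l).getLast? := List.getLast?_cons_cons
      rw [e1, e2, e3, ih, Nat.add_assoc]

theorem blk_append {α : Type} [DecidableEq α] (e : α) (l₁ l₂ : List α) :
    blk e (l₁ ++ l₂) ≤ blk e l₁ + blk e l₂ := by
  induction l₂ using List.reverseRecOn with
  | nil => simp [blk]
  | append_singleton l₂ a ih =>
    rw [← List.append_assoc, blk_snoc, blk_snoc]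
    have h : (if a = e ∧ (l₁ ++ l₂).getLast? ≠ some e then 1 else 0) ≤
        (if a = e ∧ l₂.getLast? ≠ some e then 1 else 0) := by
      by_cases h1 : l₂.getLast? = some e
      · have h2 : (l₁ ++ l₂).getLast? = some e := by
          rw [List.getLast?_append, h1]
          rfl
        simp [h1, h2]
      · split_ifs with h3 h4 <;> simp_all
    omega

theorem blk_map {α β : Type} [DecidableEq α] [DecidableEq β] {f : α → β}
    (hf : Function.Injective f) (e : α) (l : List α) : blk (f e) (l.map f) = blk e l := by
  induction l using List.reverseRecOn with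
  | nil => rfl
  | append_singleton l a ih =>
    rw [List.map_append, List.map_singleton, blk_snoc, blk_snoc, ih]
    have h1 : (f a = f e) ↔ a = e := hf.eq_iff
    have h2 : ((l.map f).getLast? = some (f e)) ↔ l.getLast? = some e := by
      rw [List.getLast?_map]
      cases l.getLast? with
      | none => simp
      | some b => simp [hf.eq_iff]
    simp only [h1, ne_eq, h2]

theorem blk_zero {α : Type} [DecidableEq α] {e : α} {l : List α} (h : e ∉ l) : blk e l = 0 := by
  induction l using List.reverseRecOn with
  | nil => rfl
  | append_singleton l a ih =>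
    rw [List.mem_append, not_or, List.mem_singleton] at h
    rw [blk_snoc, ih h.1, if_neg]
    rintro ⟨h1, -⟩
    exact h.2 h1.symm

variable {u v : List ℕ} {e : ℕ}

/-- The letter before `z` is `e`. -/
def Ep (e : ℕ) (u : List ℕ) (z : ℕ) : Prop := 1 ≤ z ∧ u[z - 1]? = some e

theorem last_take {z : ℕ} (hz : z ≤ u.length) : (u.take z).getLast? = some e ↔ Ep e u z := by
  rcases z with _ | m
  · simp [Ep]
  · have hm : m < u.length := by omega
    have h1 : u.take (m + 1) = u.take m ++ [u[m]] := by
      rw [List.take_add_one, List.getElem?_eq_getElem hm]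
      rfl
    rw [h1, List.getLast?_append]
    simp [Ep, List.getElem?_eq_getElem hm]

/-- The number of blocks before `z`. -/
def g (e : ℕ) (u : List ℕ) (z : ℕ) : ℕ := blk e (u.take z)

theorem g_succ_le (e : ℕ) (u : List ℕ) (z : ℕ) : g e u z ≤ g e u (z + 1) := by
  unfold g
  by_cases hz : z < u.length
  · have h1 : u.take (z + 1) = u.take z ++ [u[z]] := by
      rw [List.take_add_one, List.getElem?_eq_getElem hz]
      rfl
    rw [h1, blk_snoc]
    omega
  · rw [List.take_of_length_le (by omega), List.take_of_length_le (by omega)]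

theorem g_mono {x y : ℕ} (h : x ≤ y) : g e u x ≤ g e u y := by
  induction y, h using Nat.le_induction with
  | base => exact le_rfl
  | succ y _ ih => exact ih.trans (g_succ_le e u y)

/-- A block starts at `p`. -/
theorem g_start {p : ℕ} (hp : u[p]? = some e) (h : ¬ Ep e u p) : g e u (p + 1) = g e u p + 1 := by
  have hlt : p < u.length := (List.getElem?_eq_some_iff.1 hp).1
  have h1 : u.take (p + 1) = u.take p ++ [e] := by
    rw [List.take_add_one, hp]
    rfl
  unfold g
  rw [h1, blk_snoc, if_pos]
  exact ⟨rfl, fun h2 => h ((last_take hlt.le).1 h2)⟩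

/-- No letter `e` between two positions with the same number of blocks, if the first one is not after a
letter `e`. -/
theorem g_none {z z' : ℕ} (h : ¬ Ep e u z) (hg : g e u z = g e u z') (p : ℕ) (h1 : z ≤ p) :
    p < z' → u[p]? ≠ some e := by
  induction p, h1 using Nat.le_induction with
  | base =>
    intro h2 h3
    have h4 := g_start h3 h
    have h5 : g e u (z + 1) ≤ g e u z' := g_mono (by omega)
    omega
  | succ p hp ih =>
    intro h2 h3
    have h4 : ¬ Ep e u (p + 1) := by
      rintro ⟨-, h5⟩
      rw [Nat.add_sub_cancel] at h5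
      exact ih (by omega) h5
    have h5 := g_start h3 h4
    have h6 : g e u (p + 1 + 1) ≤ g e u z' := g_mono (by omega)
    have h7 : g e u z ≤ g e u (p + 1) := g_mono (by omega)
    omega

/-- Only letters `e` between two positions after letters `e` with the same number of blocks. -/
theorem g_all {z z' : ℕ} (h : Ep e u z') (hg : g e u z = g e u z') {p : ℕ}
    (h1 : z ≤ p) (h2 : p < z') : u[p]? = some e := by
  by_contra h3
  have h4 : ¬ Ep e u (p + 1) := by
    rintro ⟨-, h5⟩
    rw [Nat.add_sub_cancel] at h5
    exact h3 h5
  have h5 : g e u (p + 1) = g e u z' := by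
    have h6 : g e u z ≤ g e u (p + 1) := g_mono (by omega)
    have h7 : g e u (p + 1) ≤ g e u z' := g_mono (by omega)
    omega
  by_cases h6 : z' - 1 = p
  · rw [← h6] at h3
    exact h3 h.2
  · have h7 := h.1
    exact g_none h4 h5 (z' - 1) (by omega) (by omega) h.2

theorem g_tok {k : ℕ} (hR : ∀ a b : List ℕ, a <:+: u → b <:+: v → a.Perm b → blk e a ≤ k)
    {w : List ℕ} {x y : ℕ} (hx : Tk u v w x) (hy : Tk u v w y) :
    g e u y ≤ g e u x + k := by
  rcases Nat.le_total x y with h | h
  · have e1 : u.take y = u.take x ++ (u.take y).drop x := by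
      have e1 : (u.take y).take x = u.take x := by
        rw [List.take_take, Nat.min_eq_left h]
      rw [← e1, List.take_append_drop]
    have h1 : blk e ((u.take y).drop x) ≤ k := by
      refine hR _ ((v.take (w.length - x)).drop (w.length - y)) ?_ ?_ (SG.perm_tokens hx hy h)
      · exact (List.drop_suffix _ _).isInfix.trans (List.take_prefix _ _).isInfix
      · exact (List.drop_suffix _ _).isInfix.trans (List.take_prefix _ _).isInfix
    have h2 := blk_append e (u.take x) ((u.take y).drop x)
    rw [← e1] at h2
    unfold g
    omega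
  · have : g e u y ≤ g e u x := g_mono h
    omega

end Pool.Agent.SJ
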