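import Pool.Agent.H.MP_53e59f_lc.SJ.Code

/-!
# The number of the sets of tokens
-/

namespace Pool.Agent.SJ

open Pool.Agent.SF

theorem blk_le {α : Type} [DecidableEq α] (e : α) (l : List α) : blk e l ≤ l.length := by
  induction l using List.reverseRecOn with
  | nil => exact le_rfl
  | append_singleton l a ih =>
    rw [blk_snoc, List.length_append, List.length_singleton]
    split_ifs <;> omega

/-- The codes. -/
abbrev Q (s L n k : ℕ) : Type :=
  Fin (L + 1) × Fin (L + 1) × Fin (s + 1) × Fin (s + 1) × Fin (L + 1) × Fin (L + 1) × Fin (n + 1) ×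
    Finset (Fin (k + 1)) × Finset (Fin (k + 1)) × Finset (Fin (k + 1))

/-- The subset of the natural numbers of a subset of `Fin`. -/
def toS {k : ℕ} (A : Finset (Fin (k + 1))) : Set ℕ := {i | ∃ j ∈ A, (j : ℕ) = i}

theorem toS_ex {k : ℕ} (S : Set ℕ) (h : ∀ i ∈ S, i < k + 1) : ∃ A : Finset (Fin (k + 1)), S = toS A := by
  classical
  refine ⟨Finset.univ.filter fun j : Fin (k + 1) => (j : ℕ) ∈ S, ?_⟩
  ext i
  constructor
  · intro hi
    exact ⟨⟨i, h i hi⟩, by rw [Finset.mem_filter]; exact ⟨Finset.mem_univ _, hi⟩, rfl⟩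
  · rintro ⟨j, hj, rfl⟩
    rw [Finset.mem_filter] at hj
    exact hj.2

/-- `w` has the code `q`. -/
def ICq {s L n : ℕ} (u v : List ℕ) (k d : ℕ) (w : List ℕ) (q : Q s L n k) : Prop :=
  IC u v k d w q.1 q.2.1 q.2.2.1 q.2.2.2.1 q.2.2.2.2.1 q.2.2.2.2.2.1 q.2.2.2.2.2.2.1
    (toS q.2.2.2.2.2.2.2.1) (toS q.2.2.2.2.2.2.2.2.1) (toS q.2.2.2.2.2.2.2.2.2)

variable {u v : List ℕ} {s k d : ℕ}

theorem ICq_ex {L : ℕ}
    (h : ∀ a b : List ℕ, a <:+: u → b <:+: v → a.Perm b → ∀ e, e ≠ d → blk e a ≤ k)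
    (w : List ℕ) (hs : ∀ a ∈ w, a < s) (hL : w.length ≤ L) :
    ∃ q : Q s L u.length k, ICq u v k d w q := by
  rcases SI.split d w with ⟨j, e1⟩ | ⟨j, w0, e, he, e1⟩
  · have hj : w.length = j := by rw [e1]; simp
    refine ⟨(⟨j, by omega⟩, 0, 0, 0, 0, 0, 0, ∅, ∅, ∅), [], ?_, Or.inl rfl⟩
    exact e1
  · have hes : e < s := by
      refine hs e ?_
      rw [e1]
      simp
    have hl : w.length = w0.length + 1 + j := by
      rw [e1, List.length_append, List.length_append, List.length_replicate]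
      rfl
    rcases SI.split e (w0 ++ [e]) with ⟨i, e2⟩ | ⟨i, a, f, hf, e2⟩
    · have hi : w0.length + 1 = i := by
        have := congrArg List.length e2
        simpa using this
      refine ⟨(⟨j, by omega⟩, ⟨i, by omega⟩, ⟨e, by omega⟩, 0, 0, 0, 0, ∅, ∅, ∅), [], ?_, Or.inl rfl⟩
      exact e1.trans (by rw [e2])
    · have hi : w0.length + 1 = a.length + 1 + i := by
        have := congrArg List.length e2
        simp only [List.length_append, List.length_replicate, List.length_cons,
          List.length_nil] at this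
        omega
      have hi1 : 1 ≤ i := by
        by_contra hc
        have hi0 : i = 0 := by omega
        rw [hi0, List.replicate_zero, List.append_nil] at e2
        have h3 := congrArg List.getLast? e2
        rw [List.getLast?_concat, List.getLast?_concat] at h3
        exact hf (Option.some.inj h3).symm
      have hfs : f < s := by
        refine hs f ?_
        rw [e1, e2]
        simp
      have hcf : a.count f ≤ a.length := List.count_le_length
      have hce : (a ++ [f]).count e ≤ (a ++ [f]).length := List.count_le_length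
      rw [List.length_append, List.length_singleton] at hce
      obtain ⟨t, ht, hall⟩ : ∃ t, t < u.length + 1 ∧
          ∀ z, Tk u v (a ++ [f]) z → ∃ i, i < k + 1 ∧ g e u z = t + i := by
        by_cases hne : ∃ x, Tk u v (a ++ [f]) x
        · let P : Set ℕ := {t | ∃ x, Tk u v (a ++ [f]) x ∧ g e u x = t}
          have hP : P.Nonempty := by
            obtain ⟨x, hx⟩ := hne
            exact ⟨_, x, hx, rfl⟩
          obtain ⟨x₀, hx₀, e₀⟩ : sInf P ∈ P := Nat.sInf_mem hP
          refine ⟨sInf P, ?_, ?_⟩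
          · rw [← e₀]
            have h1 : g e u x₀ ≤ (u.take x₀).length := blk_le e _
            have h2 : (u.take x₀).length ≤ u.length := by
              rw [List.length_take]
              exact Nat.min_le_right _ _
            omega
          · intro x hx
            have h1 : sInf P ≤ g e u x := Nat.sInf_le ⟨x, hx, rfl⟩
            have h2 := g_tok (e := e) (fun a b ha hb hab => h a b ha hb hab e he) hx₀ hx
            rw [e₀] at h2
            exact ⟨g e u x - sInf P, by omega, by omega⟩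
        · exact ⟨0, by omega, fun x hx => absurd ⟨x, hx⟩ hne⟩
      have hb : ∀ i : ℕ, (∃ z, Tk u v (a ++ [f]) z ∧ g e u z = t + i) → i < k + 1 := by
        rintro i ⟨z, hz, hi⟩
        obtain ⟨i', hi', hi''⟩ := hall z hz
        omega
      obtain ⟨A, hA⟩ := toS_ex (k := k) (S1 e u v (a ++ [f]) t)
        (fun i ⟨z, hz, _, hi⟩ => hb i ⟨z, hz, hi⟩)
      obtain ⟨B, hB⟩ := toS_ex (k := k) (S2 e u v (a ++ [f]) t)
        (fun i ⟨z, hz, _, hi⟩ => hb i ⟨z, hz, hi⟩)
      obtain ⟨C, hC⟩ := toS_ex (k := k) (S3 e u v (a ++ [f]) t)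
        (fun i ⟨z, hz, _, hi⟩ => hb i ⟨z, hz, hi⟩)
      refine ⟨(⟨j, by omega⟩, ⟨i, by omega⟩, ⟨e, by omega⟩, ⟨f, by omega⟩, ⟨a.count f, by omega⟩,
        ⟨(a ++ [f]).count e, by omega⟩, ⟨t, ht⟩, A, B, C), a ++ [f], ?_,
        Or.inr ⟨a, rfl, hf, hi1, rfl, rfl, hall, hA, hB, hC⟩⟩
      exact e1.trans (by rw [e2])

/-- The bound for the number of the sets of tokens at every level. -/
def bnd (s L n k : ℕ) : ℕ := (L + 1) ^ 4 * (s + 1) ^ 2 * (n + 1) * 8 ^ (k + 1)

theorem card_Q (s L n k : ℕ) : Nat.card (Q s L n k) = bnd s L n k := by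
  unfold bnd
  rw [Nat.card_eq_fintype_card]
  simp only [Fintype.card_prod, Fintype.card_fin, Fintype.card_finset]
  have e : (8 : ℕ) ^ (k + 1) = 2 ^ (k + 1) * (2 ^ (k + 1) * 2 ^ (k + 1)) := by
    rw [← mul_pow, ← mul_pow]
    rfl
  rw [e]
  ring

theorem bnd_pos (s L n k : ℕ) : 1 ≤ bnd s L n k := by
  unfold bnd
  exact Nat.succ_le_of_lt (by positivity)

theorem count_Rs (s : ℕ) {u v : List ℕ} {k : ℕ} (h : FewB k u v) (K : ℕ) :
    {S : Set ℕ | ∃ w : List ℕ, w.length = K ∧ (∀ a ∈ w, a < s) ∧ S = Rs u v w}.Finite ∧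
      {S : Set ℕ | ∃ w : List ℕ, w.length = K ∧ (∀ a ∈ w, a < s) ∧ S = Rs u v w}.ncard ≤
        bnd s (u.length + v.length) u.length k := by
  classical
  obtain ⟨d, h⟩ := h
  by_cases hK : K ≤ u.length + v.length
  · let Φ : Q s (u.length + v.length) u.length k → Set ℕ :=
      fun q => if hq : ∃ w : List ℕ, w.length = K ∧ ICq u v k d w q then Rs u v hq.choose else ∅
    have hsub : {S : Set ℕ | ∃ w : List ℕ, w.length = K ∧ (∀ a ∈ w, a < s) ∧ S = Rs u v w} ⊆
        Set.range Φ := by
      rintro S ⟨w, hw, hws, rfl⟩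
      obtain ⟨q, hq⟩ := ICq_ex (L := u.length + v.length) h w hws (by omega)
      have hex : ∃ w : List ℕ, w.length = K ∧ ICq u v k d w q := ⟨w, hw, hq⟩
      refine ⟨q, ?_⟩
      show (if hq : ∃ w : List ℕ, w.length = K ∧ ICq u v k d w q then Rs u v hq.choose else ∅) = _
      rw [dif_pos hex]
      exact IC_det hex.choose_spec.2 hq (hex.choose_spec.1.trans hw.symm)
    have hfin : (Set.range Φ).Finite := Set.finite_range Φ
    refine ⟨hfin.subset hsub, ?_⟩
    calc _ ≤ (Set.range Φ).ncard := Set.ncard_le_ncard hsub hfin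
      _ ≤ Nat.card (Q s (u.length + v.length) u.length k) := by
        rw [← Set.image_univ]
        refine (Set.ncard_image_le (Set.finite_univ)).trans ?_
        rw [Set.ncard_univ]
      _ = bnd s (u.length + v.length) u.length k := card_Q _ _ _ _
  · have hsub : {S : Set ℕ | ∃ w : List ℕ, w.length = K ∧ (∀ a ∈ w, a < s) ∧ S = Rs u v w} ⊆
        {∅} := by
      rintro S ⟨w, hw, -, rfl⟩
      rw [Set.mem_singleton_iff]
      ext z
      simp only [Set.mem_empty_iff_false, iff_false]
      rintro ⟨h3, h4, h5, -⟩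
      omega
    refine ⟨(Set.finite_singleton _).subset hsub, ?_⟩
    refine (Set.ncard_le_ncard hsub (Set.finite_singleton _)).trans ?_
    rw [Set.ncard_singleton]
    exact bnd_pos _ _ _ _

end Pool.Agent.SJ
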