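import Pool.Agent.H.MP_53e59f_lc.SJ.Blk
import Pool.Agent.H.MP_53e59f_lc.SI.Cnt

/-!
# Codes of words
-/

namespace Pool.Agent.SJ

open Pool.Agent.SF

/-- The numbers of blocks before the tokens which are after a letter `e`. -/
def S1 (e : ℕ) (u v w : List ℕ) (h : ℕ) : Set ℕ := {i | ∃ z, Tk u v w z ∧ Ep e u z ∧ g e u z = h + i}

/-- The numbers of blocks before the tokens at the beginning of a block of `u`. -/
def S2 (e : ℕ) (u v w : List ℕ) (h : ℕ) : Set ℕ :=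
  {i | ∃ z, Tk u v w z ∧ (¬ Ep e u z ∧ u[z]? = some e) ∧ g e u z = h + i}

/-- The numbers of blocks before the other tokens which can read `e` in `v`. -/
def S3 (e : ℕ) (u v w : List ℕ) (h : ℕ) : Set ℕ :=
  {i | ∃ z, Tk u v w z ∧ (¬ Ep e u z ∧ v[w.length - z]? = some e) ∧ g e u z = h + i}

variable {u v : List ℕ} {e f k : ℕ}

theorem uniq1 {a₁ a₂ : List ℕ} (hl : a₁.length = a₂.length) (hf : f ≠ e)
    (hc : a₁.count f = a₂.count f) {z₁ z₂ : ℕ} (h1 : Tk u v (a₁ ++ [f]) z₁)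
    (h2 : Tk u v (a₂ ++ [f]) z₂) (he1 : Ep e u z₁) (he2 : Ep e u z₂)
    (hg : g e u z₁ = g e u z₂) : z₁ = z₂ := by
  have hcu : (u.take z₁).count f = (u.take z₂).count f := by
    rcases Nat.le_total z₁ z₂ with h | h
    · refine count_take_eq h fun t ht1 ht2 ht3 => ?_
      have h3 := g_all he2 hg ht1 ht2
      rw [h3] at ht3
      exact hf (Option.some.inj ht3).symm
    · refine (count_take_eq h fun t ht1 ht2 ht3 => ?_).symm
      have h3 := g_all he1 hg.symm ht1 ht2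
      rw [h3] at ht3
      exact hf (Option.some.inj ht3).symm
  have key : ∀ {a : List ℕ} {z : ℕ}, Tk u v (a ++ [f]) z → Ep e u z →
      Tk u v a z ∧ v[a.length - z]? = some f := by
    intro a z h he
    rcases (Tk_snoc u v a f z).1 h with h3 | ⟨_, _, h3⟩
    · exact h3
    · rw [he.2] at h3
      exact absurd (Option.some.inj h3).symm hf
  obtain ⟨t1, p1⟩ := key h1 he1
  obtain ⟨t2, p2⟩ := key h2 he2
  have c1 := Tk_count t1 f
  have c2 := Tk_count t2 f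
  have h3 : a₁.length - z₁ = a₂.length - z₂ := SI.pos_eq p1 p2 (by omega)
  have h4 := t1.2.1
  have h5 := t2.2.1
  omega

theorem uniq2 {z₁ z₂ : ℕ} (h1 : ¬ Ep e u z₁) (h2 : ¬ Ep e u z₂) (h3 : u[z₁]? = some e)
    (h4 : u[z₂]? = some e) (hg : g e u z₁ = g e u z₂) : z₁ = z₂ := by
  rcases Nat.lt_trichotomy z₁ z₂ with h | h | h
  · exact absurd h3 (g_none h1 hg z₁ le_rfl h)
  · exact h
  · exact absurd h4 (g_none h2 hg.symm z₂ le_rfl h)

theorem uniq3 {w₁ w₂ : List ℕ} (hl : w₁.length = w₂.length) (hc : w₁.count e = w₂.count e)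
    {z₁ z₂ : ℕ} (h1 : Tk u v w₁ z₁) (h2 : Tk u v w₂ z₂) (he1 : ¬ Ep e u z₁) (he2 : ¬ Ep e u z₂)
    (h3 : v[w₁.length - z₁]? = some e) (h4 : v[w₂.length - z₂]? = some e)
    (hg : g e u z₁ = g e u z₂) : z₁ = z₂ := by
  have hcu : (u.take z₁).count e = (u.take z₂).count e := by
    rcases Nat.le_total z₁ z₂ with h | h
    · exact count_take_eq h fun t ht1 ht2 => g_none he1 hg t ht1 ht2
    · exact (count_take_eq h fun t ht1 ht2 => g_none he2 hg.symm t ht1 ht2).symm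
  have c1 := Tk_count h1 e
  have c2 := Tk_count h2 e
  have h5 : w₁.length - z₁ = w₂.length - z₂ := SI.pos_eq h3 h4 (by omega)
  have h6 := h1.2.1
  have h7 := h2.2.1
  omega

theorem rel_sub {a₁ a₂ : List ℕ} {h : ℕ} (hl : a₁.length = a₂.length) (hf : f ≠ e)
    (hc : a₁.count f = a₂.count f) (hce : (a₁ ++ [f]).count e = (a₂ ++ [f]).count e)
    (h1 : S1 e u v (a₁ ++ [f]) h = S1 e u v (a₂ ++ [f]) h)
    (h2 : S2 e u v (a₁ ++ [f]) h = S2 e u v (a₂ ++ [f]) h)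
    (h3 : S3 e u v (a₁ ++ [f]) h = S3 e u v (a₂ ++ [f]) h)
    (hall : ∀ z, Tk u v (a₁ ++ [f]) z → ∃ i, i < k + 1 ∧ g e u z = h + i) {z : ℕ}
    (hz : Tk u v (a₁ ++ [f]) z)
    (hrel : u[z]? = some e ∨ v[(a₁ ++ [f]).length - z]? = some e) : Tk u v (a₂ ++ [f]) z := by
  have hl' : (a₁ ++ [f]).length = (a₂ ++ [f]).length := by simp [hl]
  obtain ⟨i, -, hi⟩ := hall z hz
  by_cases hE : Ep e u z
  · have h4 : i ∈ S1 e u v (a₁ ++ [f]) h := ⟨z, hz, hE, hi⟩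
    rw [h1] at h4
    obtain ⟨z', hz', hE', hi'⟩ := h4
    rw [uniq1 hl hf hc hz hz' hE hE' (hi.trans hi'.symm)]
    exact hz'
  · rcases hrel with h5 | h5
    · have h4 : i ∈ S2 e u v (a₁ ++ [f]) h := ⟨z, hz, ⟨hE, h5⟩, hi⟩
      rw [h2] at h4
      obtain ⟨z', hz', ⟨hE', h5'⟩, hi'⟩ := h4
      rw [uniq2 hE hE' h5 h5' (hi.trans hi'.symm)]
      exact hz'
    · have h4 : i ∈ S3 e u v (a₁ ++ [f]) h := ⟨z, hz, ⟨hE, h5⟩, hi⟩
      rw [h3] at h4
      obtain ⟨z', hz', ⟨hE', h5'⟩, hi'⟩ := h4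
      rw [uniq3 hl' hce hz hz' hE hE' h5 h5' (hi.trans hi'.symm)]
      exact hz'

theorem next_eq {a₁ a₂ : List ℕ} {h : ℕ} (hl : a₁.length = a₂.length) (hf : f ≠ e)
    (hc : a₁.count f = a₂.count f) (hce : (a₁ ++ [f]).count e = (a₂ ++ [f]).count e)
    (h1 : S1 e u v (a₁ ++ [f]) h = S1 e u v (a₂ ++ [f]) h)
    (h2 : S2 e u v (a₁ ++ [f]) h = S2 e u v (a₂ ++ [f]) h)
    (h3 : S3 e u v (a₁ ++ [f]) h = S3 e u v (a₂ ++ [f]) h)
    (hall₁ : ∀ z, Tk u v (a₁ ++ [f]) z → ∃ i, i < k + 1 ∧ g e u z = h + i)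
    (hall₂ : ∀ z, Tk u v (a₂ ++ [f]) z → ∃ i, i < k + 1 ∧ g e u z = h + i) :
    Rs u v ((a₁ ++ [f]) ++ [e]) = Rs u v ((a₂ ++ [f]) ++ [e]) := by
  have hl' : (a₁ ++ [f]).length = (a₂ ++ [f]).length := by simp [hl]
  ext p
  constructor
  · intro hp
    refine (Tk_snoc u v (a₂ ++ [f]) e p).2 ?_
    rcases (Tk_snoc u v (a₁ ++ [f]) e p).1 hp with ⟨h4, h5⟩ | ⟨h0, h4, h5⟩
    · exact Or.inl ⟨rel_sub hl hf hc hce h1 h2 h3 hall₁ h4 (Or.inr h5), by rw [← hl']; exact h5⟩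
    · exact Or.inr ⟨h0, rel_sub hl hf hc hce h1 h2 h3 hall₁ h4 (Or.inl h5), h5⟩
  · intro hp
    refine (Tk_snoc u v (a₁ ++ [f]) e p).2 ?_
    rcases (Tk_snoc u v (a₂ ++ [f]) e p).1 hp with ⟨h4, h5⟩ | ⟨h0, h4, h5⟩
    · exact Or.inl ⟨rel_sub hl.symm hf hc.symm hce.symm h1.symm h2.symm h3.symm hall₂ h4
        (Or.inr h5), by rw [hl']; exact h5⟩
    · exact Or.inr ⟨h0, rel_sub hl.symm hf hc.symm hce.symm h1.symm h2.symm h3.symm hall₂ h4
        (Or.inl h5), h5⟩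

/-- The word `w` has the code `(j, i, e, f, nf, ne, h, A, B, C)`. -/
def IC (u v : List ℕ) (k d : ℕ) (w : List ℕ) (j i e f nf ne h : ℕ) (A B C : Set ℕ) : Prop :=
  ∃ w' : List ℕ, w = (w' ++ List.replicate i e) ++ List.replicate j d ∧
    (w' = [] ∨ ∃ a, w' = a ++ [f] ∧ f ≠ e ∧ 1 ≤ i ∧ a.count f = nf ∧ (a ++ [f]).count e = ne ∧
      (∀ z, Tk u v (a ++ [f]) z → ∃ i, i < k + 1 ∧ g e u z = h + i) ∧
      S1 e u v (a ++ [f]) h = A ∧ S2 e u v (a ++ [f]) h = B ∧ S3 e u v (a ++ [f]) h = C)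

theorem IC_det {d j i nf ne h : ℕ} {A B C : Set ℕ} {w₁ w₂ : List ℕ}
    (h1 : IC u v k d w₁ j i e f nf ne h A B C) (h2 : IC u v k d w₂ j i e f nf ne h A B C)
    (hl : w₁.length = w₂.length) : Rs u v w₁ = Rs u v w₂ := by
  obtain ⟨w₁', rfl, h1⟩ := h1
  obtain ⟨w₂', rfl, h2⟩ := h2
  simp only [List.length_append, List.length_replicate] at hl
  rcases h1 with rfl | ⟨a₁, rfl, hf, hi, c1, c2, c3, c4, c5, c6⟩
  · have h3 : w₂' = [] := List.length_eq_zero_iff.1 (by simpa using hl.symm)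
    rw [h3]
  · rcases h2 with rfl | ⟨a₂, rfl, -, -, d1, d2, d3, d4, d5, d6⟩
    · simp only [List.length_append, List.length_cons, List.length_nil] at hl
      omega
    · have hl' : a₁.length = a₂.length := by
        simp only [List.length_append, List.length_cons, List.length_nil] at hl
        omega
      have h3 := next_eq (u := u) (v := v) (k := k) hl' hf (c1.trans d1.symm) (c2.trans d2.symm)
        (c4.trans d4.symm) (c5.trans d5.symm) (c6.trans d6.symm) c3 d3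
      obtain ⟨i, rfl⟩ : ∃ i', i = i' + 1 := ⟨i - 1, by omega⟩
      have e1 : ∀ a : List ℕ, (a ++ [f]) ++ List.replicate (i + 1) e =
          ((a ++ [f]) ++ [e]) ++ List.replicate i e := by
        intro a
        rw [List.replicate_succ, List.append_assoc (a ++ [f]) [e]]
        rfl
      have e2 : ∀ a : List ℕ, Rs u v ((a ++ [f]) ++ List.replicate (i + 1) e) =
          SI.it u v e ((a ++ [f]) ++ [e]).length i (Rs u v ((a ++ [f]) ++ [e])) := by
        intro a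
        rw [e1, SI.Rs_rep]
      have e3 : ∀ a : List ℕ, Rs u v (((a ++ [f]) ++ List.replicate (i + 1) e) ++
          List.replicate j d) = SI.it u v d ((a ++ [f]) ++ List.replicate (i + 1) e).length j
            (Rs u v ((a ++ [f]) ++ List.replicate (i + 1) e)) :=
        fun a => SI.Rs_rep u v _ d j
      rw [e3, e3, e2, e2, h3]
      simp only [List.length_append, hl']

end Pool.Agent.SJ
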